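import Pool.Agent.WR2.StmtsC

/-!
# Squad WR2, row TRF
-/

set_option autoImplicit false

namespace Pool.Agent.WR2.H31

open Pool.Agent.WIR
open scoped BigOperators

theorem trf (pre : PreStmt) (ava : AvaStmt) : TrfStmt := by
  intro N X t l f hf hL hX
  obtain ⟨h1, h2, -, -⟩ := pre
  have h3l : 0 < 3 ^ l := by positivity
  have hY : 3 ^ N ≤ 2 ^ t * X / 3 ^ l := by
    rw [Nat.le_div_iff_mul_le h3l, ← pow_add]
    exact hX
  have h4 := ava.2.2.2 N (2 ^ t * X / 3 ^ l) f hL hf hY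
  have hav : 0 ≤ av N f := by
    unfold av
    exact div_nonneg (Finset.sum_nonneg fun m _ => hf m) (by positivity)
  have hsum : ∑ a ∈ Finset.Icc 1 X, PS t l f a ≤ ∑ m ∈ Finset.Icc 1 (2 ^ t * X / 3 ^ l), f m := by
    have hdis : (↑(Finset.Icc 1 X) : Set ℕ).PairwiseDisjoint (Pre t l) := by
      intro a _ a' _ haa'
      rw [Function.onFun, Finset.disjoint_left]
      intro b hb hb'
      exact haa' (((h1 t l a b).1 hb).2.1.symm.trans ((h1 t l a' b).1 hb').2.1)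
    have e1 : ∑ a ∈ Finset.Icc 1 X, PS t l f a = ∑ b ∈ (Finset.Icc 1 X).biUnion (Pre t l), f b := by
      rw [Finset.sum_biUnion hdis]
      rfl
    rw [e1]
    refine Finset.sum_le_sum_of_subset_of_nonneg ?_ (fun m _ _ => hf m)
    intro b hb
    obtain ⟨a, ha, hb'⟩ := Finset.mem_biUnion.1 hb
    have h5 := h2 t l a b hb'
    have h6 := ((h1 t l a b).1 hb').1
    rw [Finset.mem_Icc] at ha ⊢
    refine ⟨h6, ?_⟩
    rw [Nat.le_div_iff_mul_le h3l, mul_comm]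
    exact h5.trans (Nat.mul_le_mul_left _ ha.2)
  have hYX : (3 : ℝ) ^ l * ((2 ^ t * X / 3 ^ l : ℕ) : ℝ) ≤ 2 ^ t * X := by
    have h7 : 3 ^ l * (2 ^ t * X / 3 ^ l) ≤ 2 ^ t * X := Nat.mul_div_le _ _
    exact_mod_cast h7
  rw [← Finset.mul_sum]
  have h2t : (0 : ℝ) < 2 ^ t := by positivity
  calc (3 ^ l / 2 ^ t : ℝ) * ∑ a ∈ Finset.Icc 1 X, PS t l f a
      ≤ (3 ^ l / 2 ^ t : ℝ) * (2 * ((2 ^ t * X / 3 ^ l : ℕ) : ℝ) * av N f) :=
        mul_le_mul_of_nonneg_left (hsum.trans h4) (by positivity)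
    _ = ((3 : ℝ) ^ l * ((2 ^ t * X / 3 ^ l : ℕ) : ℝ)) / 2 ^ t * (2 * av N f) := by ring
    _ ≤ (2 ^ t * X) / 2 ^ t * (2 * av N f) := by
        refine mul_le_mul_of_nonneg_right ?_ (by positivity)
        exact div_le_div_of_nonneg_right hYX h2t.le
    _ = 2 * X * av N f := by
        rw [mul_div_cancel_left₀ _ h2t.ne']
        ring

end Pool.Agent.WR2.H31
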